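import Pool.Agent.Y34.HB.Stm

/-!
# MINI: elements of a crystallographic group with small rotation part in every direction

The statement `Pool.Agent.Y34.HB.S_MINI`.
-/

set_option autoImplicit false

universe u v

open Metric Set Filter Topology

namespace Pool.Agent.Y809.HB

open Pool.Agent.Y34.HB

/-- the linear part as a continuous linear map -/
noncomputable def lp {k : ℕ} (A : E k ≃ᵃⁱ[ℝ] E k) : E k →L[ℝ] E k :=
  (A.linearIsometryEquiv.toContinuousLinearEquiv : E k →L[ℝ] E k)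

theorem lp_apply {k : ℕ} (A : E k ≃ᵃⁱ[ℝ] E k) (z : E k) : lp A z = A.linearIsometryEquiv z := rfl

theorem lp_norm {k : ℕ} (A : E k ≃ᵃⁱ[ℝ] E k) : ‖lp A‖ ≤ 1 := by
  refine ContinuousLinearMap.opNorm_le_bound _ zero_le_one fun z => ?_
  rw [lp_apply, LinearIsometryEquiv.norm_map, one_mul]

theorem aff_apply {k : ℕ} (A : E k ≃ᵃⁱ[ℝ] E k) (z : E k) :
    A z = A.linearIsometryEquiv z + A 0 := by
  have h := A.map_vadd 0 z
  simpa using h

theorem lin_mul {k : ℕ} (A B : E k ≃ᵃⁱ[ℝ] E k) (z : E k) :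
    (A * B).linearIsometryEquiv z = A.linearIsometryEquiv (B.linearIsometryEquiv z) := rfl

theorem mini : S_MINI.{v} := by
  intro k Γ _ e r hr a ε hε
  choose g hg using fun n : ℕ => hr ((n : ℝ) • a)
  haveI : ProperSpace (E k →L[ℝ] E k) := FiniteDimensional.proper ℝ _
  obtain ⟨A, -, φ, hφ, hA⟩ := tendsto_subseq_of_bounded (isBounded_closedBall
    (x := (0 : E k →L[ℝ] E k)) (r := 1)) (x := fun n => lp (e (g n)))
    (fun n => by rw [mem_closedBall, dist_zero_right]; exact lp_norm _)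
  obtain ⟨N, hN⟩ := Metric.cauchySeq_iff'.1 hA.cauchySeq ε hε
  refine ⟨r + ‖e (g (φ N)) 0‖, fun T => ?_⟩
  obtain ⟨n0, hn0⟩ := exists_nat_ge T
  set n := max N n0 with hn
  refine ⟨(φ n : ℝ), ?_, g (φ n) * (g (φ N))⁻¹, ?_, ?_⟩
  · have h1 : n0 ≤ φ n := (le_max_right N n0).trans (hφ.id_le n)
    exact hn0.trans (by exact_mod_cast h1)
  · have h1 : e (g (φ n)) 0 = (e (g (φ n) * (g (φ N))⁻¹)).linearIsometryEquiv (e (g (φ N)) 0) +
        e (g (φ n) * (g (φ N))⁻¹) 0 := by
      rw [← aff_apply]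
      conv_lhs => rw [show g (φ n) = (g (φ n) * (g (φ N))⁻¹) * g (φ N) by group]
      rw [map_mul e (g (φ n) * (g (φ N))⁻¹)]
      rfl
    have h2 : e (g (φ n) * (g (φ N))⁻¹) 0 - (φ n : ℝ) • a =
        (e (g (φ n)) 0 - (φ n : ℝ) • a) -
          (e (g (φ n) * (g (φ N))⁻¹)).linearIsometryEquiv (e (g (φ N)) 0) := by
      rw [h1]; abel
    rw [h2]
    refine (norm_sub_le _ _).trans ?_
    rw [LinearIsometryEquiv.norm_map]
    exact add_le_add (hg _) le_rfl
  · intro z
    obtain ⟨y, rfl⟩ := (e (g (φ N))).linearIsometryEquiv.surjective z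
    have h1 : (e (g (φ n) * (g (φ N))⁻¹)).linearIsometryEquiv
        ((e (g (φ N))).linearIsometryEquiv y) = (e (g (φ n))).linearIsometryEquiv y := by
      rw [← lin_mul, ← map_mul, inv_mul_cancel_right]
    rw [h1, LinearIsometryEquiv.norm_map]
    have h2 := (hN n (le_max_left N n0)).le
    rw [dist_eq_norm] at h2
    have h3 := ContinuousLinearMap.le_of_opNorm_le _ h2 y
    exact h3

end Pool.Agent.Y809.HB
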